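import Mathlib
import Pool.Agent.H466Z.SturmDefs
import Pool.Agent.H466Z.SturmE

/-!
A summable interaction whose unique ground state is a Sturmian measure, stable at zero
temperature under all small finite-range perturbations.
-/

set_option autoImplicit false

namespace Pool.Agent.Results.MP_084e97_mp.Stable

open Pool.Agent.H466Z.Sturm

theorem result : ∃ φ : ℝ, Irrational φ ∧ 0 < φ ∧ φ < 1 ∧
    ∃ (H : Finset ℤ → Conf → ℝ) (ρ : MeasureTheory.Measure Conf),
      IsInteraction H ∧ IsSturmianMeasure φ ρ ∧ (∀ μ, IsSturmianMeasure φ μ → μ = ρ) ∧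
      IsGroundState H ρ ∧ (∀ μ, IsGroundState H μ → μ = ρ) ∧
      ∀ H' : Finset ℤ → Conf → ℝ, IsInteraction H' → FiniteRange H' →
        ∃ ε₀ : ℝ, 0 < ε₀ ∧ ∀ ε : ℝ, 0 < ε → ε < ε₀ →
          IsGroundState (fun Λ X => H Λ X + ε * H' Λ X) ρ :=
  main

end Pool.Agent.Results.MP_084e97_mp.Stable
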